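import Pool.Agent.H357R2.SI.Energy

/-!
Uniform distribution of the primes in almost all short intervals at all but boundedly many
dyadic scales (MP_31d0eb_nt, helper582).
-/

set_option autoImplicit false

open Filter Topology
open Pool.Agent.H357R2.SI

namespace Pool.Agent.H582SR

/-- normalised prime density of the block `(y, y + 2^i]` -/
noncomputable def F (l : ℝ) (i y : ℕ) : ℝ := l * (pc y (y + 2 ^ i) : ℝ) / 2 ^ i

lemma F_step (l : ℝ) (i y : ℕ) : F l (i + 1) y = (F l i y + F l i (y + 2 ^ i)) / 2 := by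
  have h := pc_add (a := y) (b := y + 2 ^ i) (c := y + 2 ^ i + 2 ^ i)
    (Nat.le_add_right _ _) (Nat.le_add_right _ _)
  have h2 : y + 2 ^ (i + 1) = y + 2 ^ i + 2 ^ i := by rw [pow_succ]; ring
  unfold F
  rw [h2, ← h]
  push_cast
  rw [pow_succ]
  field_simp

lemma F_mul (l : ℝ) (i y : ℕ) : l * (pc y (y + 2 ^ i) : ℝ) = 2 ^ i * F l i y := by
  unfold F
  field_simp

lemma F_nonneg (l : ℝ) (hl : 0 ≤ l) (i y : ℕ) : 0 ≤ F l i y := by
  unfold F; positivity

/-- from regularity of the dyadic blocks to uniform distribution -/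
lemma uniform (l : ℝ) (hl : 0 < l) (b m n : ℕ) (t : ℝ) (ht : 0 ≤ t)
    (hg : ∀ i, b ≤ i → i < b + m → ∀ q, q * 2 ^ (i + 1) < 2 ^ (b + m) →
      |F l i (n + q * 2 ^ (i + 1)) - F l i (n + q * 2 ^ (i + 1) + 2 ^ i)| ≤ t)
    (h : ℕ) (hh : h ≤ 2 ^ (b + m)) :
    |l * (pc n (n + h) : ℝ) - h * F l (b + m) n| ≤
      2 ^ b * F l (b + m) n + 2 ^ (b + m) * (m * t / 2) := by
  have hn := nested (F l) (F_step l) b t m n hg
  set D := F l (b + m) n with hD
  have hD0 : 0 ≤ D := F_nonneg l hl.le _ _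
  set e : ℝ := m * t / 2 with he
  have he0 : 0 ≤ e := by positivity
  have hblock : ∀ r : ℕ, r ≤ 2 ^ m →
      |l * (pc n (n + r * 2 ^ b) : ℝ) - (r * 2 ^ b) * D| ≤ (r * 2 ^ b) * e := by
    intro r
    induction r with
    | zero => intro _; simp [pc_self]
    | succ r ih =>
      intro hr
      have h1 := ih (by omega)
      have h2 := hn r (by omega)
      have h3 := pc_add (a := n) (b := n + r * 2 ^ b) (c := n + r * 2 ^ b + 2 ^ b)
        (Nat.le_add_right _ _) (Nat.le_add_right _ _)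
      have h4 : n + (r + 1) * 2 ^ b = n + r * 2 ^ b + 2 ^ b := by ring
      have h5 := F_mul l b (n + r * 2 ^ b)
      rw [h4, ← h3]
      push_cast
      rw [mul_add, h5]
      have h6 : (0 : ℝ) < 2 ^ b := by positivity
      rw [abs_le] at h1 h2 ⊢
      constructor
      · nlinarith [h1.1, h2.1]
      · nlinarith [h1.2, h2.2]
  have h2b : (0 : ℝ) < 2 ^ b := by positivity
  have h2bN : 0 < 2 ^ b := by positivity
  have hpow : (2 : ℝ) ^ (b + m) = 2 ^ m * 2 ^ b := by rw [pow_add]; ring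
  have hpowN : 2 ^ (b + m) = 2 ^ m * 2 ^ b := by rw [pow_add]; ring
  set r := h / 2 ^ b with hr
  have hr1 : r * 2 ^ b ≤ h := Nat.div_mul_le_self h (2 ^ b)
  have hr2 : h < (r + 1) * 2 ^ b := by
    have := Nat.lt_div_mul_add (a := h) h2bN
    rw [← hr] at this
    nlinarith
  have hrm : r ≤ 2 ^ m := by
    by_contra hcon
    have h7 : 2 ^ m + 1 ≤ r := by omega
    have h8 : (2 ^ m + 1) * 2 ^ b ≤ r * 2 ^ b := Nat.mul_le_mul_right _ h7
    have h9 : (2 ^ m + 1) * 2 ^ b = 2 ^ m * 2 ^ b + 2 ^ b := by ring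
    omega
  have hr1' : (r : ℝ) * 2 ^ b ≤ h := by exact_mod_cast hr1
  have hr2' : (h : ℝ) < (r + 1) * 2 ^ b := by exact_mod_cast hr2
  have hrm' : (r : ℝ) ≤ 2 ^ m := by exact_mod_cast hrm
  have hlow : (r : ℝ) * 2 ^ b * D - r * 2 ^ b * e ≤ l * (pc n (n + h) : ℝ) := by
    have h1 := (abs_le.1 (hblock r hrm)).1
    have h2 : (pc n (n + r * 2 ^ b) : ℝ) ≤ pc n (n + h) := by
      exact_mod_cast pc_mono (by omega)
    nlinarith
  rcases Nat.lt_or_ge r (2 ^ m) with hlt | hge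
  · have h1 := (abs_le.1 (hblock (r + 1) hlt)).2
    have h2 : (pc n (n + h) : ℝ) ≤ pc n (n + (r + 1) * 2 ^ b) := by
      exact_mod_cast pc_mono (by omega)
    have hlt' : (r : ℝ) + 1 ≤ 2 ^ m := by exact_mod_cast hlt
    have hup : l * (pc n (n + h) : ℝ) ≤ ((r + 1) * 2 ^ b) * D + ((r + 1) * 2 ^ b) * e := by
      push_cast at h1
      nlinarith
    have h3 : ((r : ℝ) + 1) * 2 ^ b ≤ 2 ^ m * 2 ^ b := by nlinarith
    have h4 : (r : ℝ) * 2 ^ b ≤ 2 ^ m * 2 ^ b := by nlinarith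
    rw [abs_le, hpow]
    constructor
    · have e1 : ((h : ℝ) - r * 2 ^ b) * D ≤ 2 ^ b * D := by
        apply mul_le_mul_of_nonneg_right _ hD0; linarith
      have e2 : (r : ℝ) * 2 ^ b * e ≤ 2 ^ m * 2 ^ b * e := mul_le_mul_of_nonneg_right h4 he0
      linarith
    · have e1 : (((r : ℝ) + 1) * 2 ^ b - h) * D ≤ 2 ^ b * D := by
        apply mul_le_mul_of_nonneg_right _ hD0; linarith
      have e2 : ((r : ℝ) + 1) * 2 ^ b * e ≤ 2 ^ m * 2 ^ b * e := mul_le_mul_of_nonneg_right h3 he0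
      linarith
  · have hreq : r = 2 ^ m := le_antisymm hrm hge
    have hheq : h = r * 2 ^ b := by
      rw [hreq] at hr1 ⊢
      omega
    have h1 := hblock r hrm
    rw [← hheq] at h1
    have h4 : (h : ℝ) = r * 2 ^ b := by exact_mod_cast hheq
    rw [h4, hpow]
    refine h1.trans ?_
    have h5 : (r : ℝ) * 2 ^ b * e ≤ 2 ^ m * 2 ^ b * e :=
      mul_le_mul_of_nonneg_right (by nlinarith) he0
    have h6 : 0 ≤ 2 ^ b * D := by positivity
    linarith

/-- Chebyshev's inequality -/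
lemma cheb (s : Finset ℕ) (f : ℕ → ℝ) (c : ℝ) (hc : 0 < c) :
    ((s.filter (fun n => c < |f n|)).card : ℝ) * c ^ 2 ≤ ∑ n ∈ s, f n ^ 2 := by
  calc ((s.filter (fun n => c < |f n|)).card : ℝ) * c ^ 2
      = ∑ n ∈ s.filter (fun n => c < |f n|), c ^ 2 := by rw [Finset.sum_const, nsmul_eq_mul]
    _ ≤ ∑ n ∈ s.filter (fun n => c < |f n|), f n ^ 2 := by
        apply Finset.sum_le_sum
        intro n hn
        rw [Finset.mem_filter] at hn
        rw [← sq_abs (f n)]
        exact pow_le_pow_left₀ hc.le hn.2.le 2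
    _ ≤ ∑ n ∈ s, f n ^ 2 :=
        Finset.sum_le_sum_of_subset_of_nonneg (Finset.filter_subset _ _)
          (fun _ _ _ => sq_nonneg _)

/-- energy of the density differences -/
lemma diff_energy (l : ℝ) (N i s : ℕ) (hs : s < 2 * N) (hi : 2 ^ i ≤ N) :
    ∑ n ∈ Finset.range N, (F l i (n + s) - F l i (n + s + 2 ^ i)) ^ 2 ≤
      l ^ 2 * Df (8 * N) (2 ^ i) / 4 ^ i := by
  have h1 : ∑ n ∈ Finset.range N, (F l i (n + s) - F l i (n + s + 2 ^ i)) ^ 2 ≤
      ∑ y ∈ Finset.range (8 * N), l ^ 2 * ((SZ (8 * N) (2 ^ i) y : ℝ) -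
        SZ (8 * N) (2 ^ i) (y + 2 ^ i)) ^ 2 / 4 ^ i := by
    have h2 : ∑ n ∈ Finset.range N, (F l i (n + s) - F l i (n + s + 2 ^ i)) ^ 2 =
        ∑ y ∈ (Finset.range N).map (addRightEmbedding s),
          l ^ 2 * ((SZ (8 * N) (2 ^ i) y : ℝ) - SZ (8 * N) (2 ^ i) (y + 2 ^ i)) ^ 2 / 4 ^ i := by
      rw [Finset.sum_map]
      apply Finset.sum_congr rfl
      intro n hn
      rw [Finset.mem_range] at hn
      rw [addRightEmbedding_apply, SZ_eq (by omega), SZ_eq (by omega)]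
      unfold F
      have h4 : (4 : ℝ) ^ i = 2 ^ i * 2 ^ i := by rw [← mul_pow]; norm_num
      rw [h4]
      field_simp
    rw [h2]
    apply Finset.sum_le_sum_of_subset_of_nonneg
    · intro y hy
      rw [Finset.mem_map] at hy
      obtain ⟨n, hn, rfl⟩ := hy
      rw [Finset.mem_range] at hn ⊢
      rw [addRightEmbedding_apply]
      omega
    · intro _ _ _; positivity
  refine h1.trans (le_of_eq ?_)
  unfold Df
  rw [Finset.mul_sum, Finset.sum_div]

end Pool.Agent.H582SR
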