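import Pool.Agent.H582SR.Core

/-!
Uniform distribution of the primes in almost all short intervals at all but boundedly many
dyadic scales: the main theorem (MP_31d0eb_nt, helper582).
-/

set_option autoImplicit false

open Filter Topology
open Pool.Agent.H357R2.SI

namespace Pool.Agent.H582SR

/-- number of dyadic scales with large difference energy -/
lemma bad_scales (C : ℝ) (N₀ : ℕ)
    (hsm : ∀ N T : ℕ, N₀ ≤ N → Real.log N / 2 ≤ T → T ≤ N →
      ∑ n ∈ Finset.range N, ((pc n (n + T) : ℝ)) ^ 2 ≤ C * N * T ^ 2 / Real.log N ^ 2)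
    (hC : 0 < C) (N a : ℕ) (hN : N₀ ≤ N) (hN8 : 8 ≤ N) (eta : ℝ) (heta : 0 < eta)
    (ha1 : ((2 ^ a : ℕ) : ℝ) ≤ Real.log ((8 * N : ℕ) : ℝ))
    (ha2 : Real.log ((8 * N : ℕ) : ℝ) / 2 ≤ ((2 ^ a : ℕ) : ℝ)) (k : ℕ) :
    (((Finset.Ico a (a + k)).filter
      (fun i => eta * 4 ^ i * N / Real.log N ^ 2 < Df (8 * N) (2 ^ i))).card : ℝ) ≤
      32 * C / eta := by
  have hN8' : (8 : ℝ) ≤ N := by exact_mod_cast hN8
  have hl0 : 0 < Real.log N := Real.log_pos (by linarith)
  have hlZ : Real.log N ≤ Real.log ((8 * N : ℕ) : ℝ) := by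
    apply Real.log_le_log (by linarith)
    push_cast; linarith
  have hlZ0 : 0 < Real.log ((8 * N : ℕ) : ℝ) := hl0.trans_le hlZ
  have haZ : 2 ^ a ≤ 8 * N := by
    have h1 : Real.log ((8 * N : ℕ) : ℝ) ≤ ((8 * N : ℕ) : ℝ) := by
      have := Real.log_le_sub_one_of_pos (x := ((8 * N : ℕ) : ℝ)) (by push_cast; linarith)
      linarith
    exact_mod_cast ha1.trans h1
  have h1 := hsm (8 * N) (2 ^ a) (by omega) ha2 haZ
  have hEn : En (8 * N) (2 ^ a) ≤ C * ((8 * N : ℕ) : ℝ) * ((2 ^ a : ℕ) : ℝ) ^ 2 /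
      Real.log ((8 * N : ℕ) : ℝ) ^ 2 := by
    refine le_trans ?_ h1
    unfold En
    apply Finset.sum_le_sum
    intro n _
    have : (SZ (8 * N) (2 ^ a) n : ℝ) ≤ pc n (n + 2 ^ a) := by exact_mod_cast SZ_le
    gcongr
  have h4 : ((2 ^ a : ℕ) : ℝ) ^ 2 = 4 ^ a := by
    push_cast; rw [← pow_mul, mul_comm, pow_mul]; norm_num
  rw [h4] at hEn
  have hEn2 : En (8 * N) (2 ^ a) / 4 ^ a ≤ 8 * C * N / Real.log N ^ 2 := by
    rw [div_le_iff₀ (by positivity)]
    refine hEn.trans ?_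
    calc C * ((8 * N : ℕ) : ℝ) * 4 ^ a / Real.log ((8 * N : ℕ) : ℝ) ^ 2
        ≤ C * ((8 * N : ℕ) : ℝ) * 4 ^ a / Real.log N ^ 2 := by gcongr
      _ = 8 * C * N / Real.log N ^ 2 * 4 ^ a := by push_cast; ring
  have hsum := energy_sum (8 * N) a k
  have hEk : 0 ≤ En (8 * N) (2 ^ (a + k)) / 4 ^ (a + k) :=
    div_nonneg (En_nonneg _ _) (by positivity)
  have hs2 : ∑ i ∈ Finset.Ico a (a + k), Df (8 * N) (2 ^ i) / 4 ^ (i + 1) ≤
      8 * C * N / Real.log N ^ 2 := by
    rw [Finset.sum_Ico_eq_sum_range, Nat.add_sub_cancel_left]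
    linarith
  set B0 := (Finset.Ico a (a + k)).filter
      (fun i => eta * 4 ^ i * N / Real.log N ^ 2 < Df (8 * N) (2 ^ i)) with hB0
  have h5 : (B0.card : ℝ) * (eta * N / (4 * Real.log N ^ 2)) ≤ 8 * C * N / Real.log N ^ 2 := by
    calc (B0.card : ℝ) * (eta * N / (4 * Real.log N ^ 2))
        = ∑ i ∈ B0, eta * N / (4 * Real.log N ^ 2) := by rw [Finset.sum_const, nsmul_eq_mul]
      _ ≤ ∑ i ∈ B0, Df (8 * N) (2 ^ i) / 4 ^ (i + 1) := by
          apply Finset.sum_le_sum
          intro i hi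
          rw [hB0, Finset.mem_filter] at hi
          rw [le_div_iff₀ (by positivity)]
          refine le_trans (le_of_eq ?_) hi.2.le
          rw [pow_succ]; field_simp; try ring
      _ ≤ ∑ i ∈ Finset.Ico a (a + k), Df (8 * N) (2 ^ i) / 4 ^ (i + 1) :=
          Finset.sum_le_sum_of_subset_of_nonneg (Finset.filter_subset _ _)
            (fun _ _ _ => div_nonneg (Df_nonneg _ _) (by positivity))
      _ ≤ _ := hs2
  rw [le_div_iff₀ heta]
  have h6 : (B0.card : ℝ) * (eta * N / (4 * Real.log N ^ 2)) =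
      ((B0.card : ℝ) * eta) * (N / (4 * Real.log N ^ 2)) := by ring
  have h7 : 8 * C * N / Real.log N ^ 2 = (32 * C) * (N / (4 * Real.log N ^ 2)) := by
    field_simp; ring
  rw [h6, h7] at h5
  exact le_of_mul_le_mul_right h5 (by positivity)

/-- the main theorem -/
theorem main (δ : ℝ) (hδ : 0 < δ) : ∃ K : ℕ, ∀ᶠ N : ℕ in atTop, ∃ B : Finset ℕ, B.card ≤ K ∧
    ∀ H : ℕ, (K : ℝ) * Real.log N ≤ H → H ≤ N → (∀ i ∈ B, ¬ (2 ^ i ≤ H ∧ H < 2 ^ (i + 1))) →
      (({n : ℕ | n < N ∧ ∃ h ≤ H, δ * H / Real.log N <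
        |(pc n (n + h) : ℝ) - h / H * (pc n (n + H) : ℝ)|}).ncard : ℝ) ≤ δ * N := by
  classical
  obtain ⟨C, hC1, N₀, hN₀, hsm⟩ := second_moment_scales
  have hC0 : 0 < C := by linarith
  set A : ℝ := 1 + 16 * C / δ with hA
  have hAC : 16 * C / δ ≤ A := by rw [hA]; linarith
  have hA1 : 1 ≤ A := by
    have : 0 ≤ 16 * C / δ := by positivity
    rw [hA]; linarith
  have hA2 : 8 * C ≤ A ^ 2 * (δ / 2) := by
    have h1 : A ≤ A ^ 2 := by nlinarith
    have h2 : 16 * C / δ * (δ / 2) = 8 * C := by field_simp; ring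
    rw [← h2]
    exact mul_le_mul_of_nonneg_right (hAC.trans h1) (by positivity)
  obtain ⟨m0, hm0⟩ := pow_unbounded_of_one_lt (8 * A / δ) (one_lt_two)
  set m : ℕ := m0 + 1 with hm
  have hm1 : (1 : ℝ) ≤ m := by rw [hm]; push_cast; linarith [Nat.cast_nonneg (α := ℝ) m0]
  have hm2 : 8 * A / δ ≤ 2 ^ m := by
    refine hm0.le.trans ?_
    exact pow_le_pow_right₀ one_le_two (by omega)
  have hAm : A / 2 ^ m ≤ δ / 8 := by
    rw [div_le_iff₀ (by positivity)]
    rw [div_le_iff₀ hδ] at hm2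
    linarith
  set t : ℝ := δ / (4 * m) with ht
  have ht0 : 0 < t := by positivity
  have hmt : m * t / 2 = δ / 8 := by rw [ht]; field_simp; ring
  set eta : ℝ := δ * t ^ 2 / (2 * m * 2 ^ m) with heta
  have heta0 : 0 < eta := by positivity
  refine ⟨⌈m * (32 * C / eta)⌉₊ + 2 ^ (m + 1), ?_⟩
  set K : ℕ := ⌈m * (32 * C / eta)⌉₊ + 2 ^ (m + 1) with hK
  filter_upwards [eventually_ge_atTop (max N₀ 8)] with N hN
  have hNN : N₀ ≤ N := (le_max_left _ _).trans hN
  have hN8 : 8 ≤ N := (le_max_right _ _).trans hN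
  have hN8' : (8 : ℝ) ≤ N := by exact_mod_cast hN8
  set l : ℝ := Real.log N with hl
  have hl1 : 1 ≤ l := by
    rw [hl, Real.le_log_iff_exp_le (by linarith)]
    have := Real.exp_one_lt_d9
    linarith
  have hl0 : 0 < l := by linarith
  set LZ : ℝ := Real.log ((8 * N : ℕ) : ℝ) with hLZ
  have hlLZ : l ≤ LZ := by
    apply Real.log_le_log (by linarith)
    push_cast; linarith
  have hLZ2 : LZ ≤ 2 * l := by
    have h1 : ((8 * N : ℕ) : ℝ) ≤ (N : ℝ) ^ 2 := by push_cast; nlinarith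
    have h2 := Real.log_le_log (by push_cast; linarith) h1
    rw [Real.log_pow] at h2
    exact_mod_cast h2
  set a : ℕ := Nat.log 2 ⌊LZ⌋₊ with ha
  have hfl : ⌊LZ⌋₊ ≠ 0 := by
    have : 1 ≤ ⌊LZ⌋₊ := Nat.le_floor (by push_cast; linarith)
    omega
  have ha1 : ((2 ^ a : ℕ) : ℝ) ≤ LZ := by
    have h1 : 2 ^ a ≤ ⌊LZ⌋₊ := Nat.pow_log_le_self 2 hfl
    have h2 : ((2 ^ a : ℕ) : ℝ) ≤ (⌊LZ⌋₊ : ℝ) := by exact_mod_cast h1
    exact h2.trans (Nat.floor_le (by linarith))
  have ha2 : LZ / 2 ≤ ((2 ^ a : ℕ) : ℝ) := by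
    have h1 : ⌊LZ⌋₊ < 2 ^ (a + 1) := Nat.lt_pow_succ_log_self (by norm_num) _
    have h2 : ((⌊LZ⌋₊ : ℕ) : ℝ) + 1 ≤ ((2 ^ (a + 1) : ℕ) : ℝ) := by exact_mod_cast h1
    have h3 := Nat.lt_floor_add_one LZ
    have h4 : ((2 ^ (a + 1) : ℕ) : ℝ) = 2 * ((2 ^ a : ℕ) : ℝ) := by push_cast; ring
    linarith
  have hbad := bad_scales C N₀ hsm hC0 N a hNN hN8 eta heta0 ha1 ha2 N
  set B0 := (Finset.Ico a (a + N)).filter
      (fun i => eta * 4 ^ i * N / Real.log N ^ 2 < Df (8 * N) (2 ^ i)) with hB0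
  refine ⟨B0.biUnion (fun i => Finset.Ico i (i + m)), ?_, ?_⟩
  · have h1 : (B0.biUnion (fun i => Finset.Ico i (i + m))).card ≤ B0.card * m := by
      apply Finset.card_biUnion_le_card_mul
      intro i _
      simp
    have h2 : ((B0.card * m : ℕ) : ℝ) ≤ m * (32 * C / eta) := by
      push_cast
      rw [mul_comm]
      exact mul_le_mul_of_nonneg_left hbad (by positivity)
    have h3 : B0.card * m ≤ ⌈m * (32 * C / eta)⌉₊ := by
      have := h2.trans (Nat.le_ceil _)
      exact_mod_cast this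
    exact h1.trans (h3.trans (Nat.le_add_right _ _))
  · intro H hKH hHN hBH
    have hK1 : ((2 ^ (m + 1) : ℕ) : ℝ) ≤ K := by
      have : 2 ^ (m + 1) ≤ K := by rw [hK]; omega
      exact_mod_cast this
    have hKl : (K : ℝ) ≤ K * l := by nlinarith [Nat.cast_nonneg (α := ℝ) K]
    have hH2 : ((2 ^ (m + 1) : ℕ) : ℝ) ≤ H := hK1.trans (hKl.trans hKH)
    have hH2' : 2 ^ (m + 1) ≤ H := by exact_mod_cast hH2
    have hHpos : 0 < H := lt_of_lt_of_le (by positivity) hH2'
    have hHr : (0 : ℝ) < H := by exact_mod_cast hHpos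
    set j : ℕ := Nat.log 2 H with hj
    have hj1 : 2 ^ j ≤ H := Nat.pow_log_le_self 2 hHpos.ne'
    have hj2 : H < 2 ^ (j + 1) := Nat.lt_pow_succ_log_self (by norm_num) _
    have hmj : m ≤ j + 1 := by
      by_contra hcon
      have h1 : 2 ^ (j + 1) ≤ 2 ^ (m + 1) := Nat.pow_le_pow_right (by norm_num) (by omega)
      omega
    obtain ⟨b, hb⟩ : ∃ b, j + 1 = b + m := ⟨j + 1 - m, by omega⟩
    have hab : a ≤ b := by
      by_contra hcon
      have h1 : 2 ^ (b + m) ≤ 2 ^ (a + m) := Nat.pow_le_pow_right (by norm_num) (by omega)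
      have h2 : (H : ℝ) < ((2 ^ (a + m) : ℕ) : ℝ) := by
        have h3 : H < 2 ^ (a + m) := by rw [hb] at hj2; exact lt_of_lt_of_le hj2 h1
        exact_mod_cast h3
      have h3 : ((2 ^ (a + m) : ℕ) : ℝ) = ((2 ^ a : ℕ) : ℝ) * 2 ^ m := by push_cast; rw [pow_add]
      have h4 : ((2 ^ (m + 1) : ℕ) : ℝ) = 2 * 2 ^ m := by push_cast; ring
      have h5 : ((2 ^ a : ℕ) : ℝ) * 2 ^ m ≤ 2 * l * 2 ^ m :=
        mul_le_mul_of_nonneg_right (ha1.trans hLZ2) (by positivity)
      have h6 : ((2 ^ (m + 1) : ℕ) : ℝ) * l ≤ K * l := mul_le_mul_of_nonneg_right hK1 hl0.le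
      rw [h4] at h6
      rw [h3] at h2
      nlinarith
    have hgood : ∀ i, b ≤ i → i < b + m → 2 ^ i ≤ N ∧
        Df (8 * N) (2 ^ i) ≤ eta * 4 ^ i * N / l ^ 2 := by
      intro i hi1 hi2
      have h1 : 2 ^ i ≤ 2 ^ j := Nat.pow_le_pow_right (by norm_num) (by omega)
      have h2 : 2 ^ i ≤ N := h1.trans (hj1.trans hHN)
      refine ⟨h2, ?_⟩
      by_contra hcon
      push Not at hcon
      have hiN : i < N := (Nat.lt_two_pow_self).trans_le h2
      have h3 : i ∈ B0 := by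
        rw [hB0, Finset.mem_filter, Finset.mem_Ico]
        exact ⟨⟨by omega, by omega⟩, hcon⟩
      apply hBH j _ ⟨hj1, hj2⟩
      rw [Finset.mem_biUnion]
      exact ⟨i, h3, by rw [Finset.mem_Ico]; omega⟩
    have hL2 : 2 ^ (b + m) ≤ 2 * H := by rw [← hb, pow_succ]; omega
    have hL2' : (2 : ℝ) ^ (b + m) ≤ 2 * H := by exact_mod_cast hL2
    have hHL : H ≤ 2 ^ (b + m) := by rw [← hb]; exact hj2.le
    -- exceptional sets
    set X1 := (Finset.range N).filter (fun n => A < |F l (b + m) n|) with hX1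
    set X2 : ℕ → ℕ → Finset ℕ := fun i q => (Finset.range N).filter
      (fun n => t < |F l i (n + q * 2 ^ (i + 1)) - F l i (n + q * 2 ^ (i + 1) + 2 ^ i)|) with hX2
    set Q : ℕ → Finset ℕ := fun i => (Finset.range (2 ^ m)).filter
      (fun q => q * 2 ^ (i + 1) < 2 ^ (b + m)) with hQ
    have hcX1 : (X1.card : ℝ) ≤ δ / 2 * N := by
      have h1 := cheb (Finset.range N) (fun n => F l (b + m) n) A (by linarith)
      have h2 : ∑ n ∈ Finset.range N, F l (b + m) n ^ 2 ≤ 8 * C * N := by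
        have h3 := hsm (8 * N) (2 ^ (b + m)) (by omega) (by
          refine ha2.trans ?_
          have : 2 ^ a ≤ 2 ^ (b + m) := Nat.pow_le_pow_right (by norm_num) (by omega)
          exact_mod_cast this) (by omega)
        calc ∑ n ∈ Finset.range N, F l (b + m) n ^ 2
            = l ^ 2 / ((2 ^ (b + m) : ℕ) : ℝ) ^ 2 *
              ∑ n ∈ Finset.range N, ((pc n (n + 2 ^ (b + m)) : ℝ)) ^ 2 := by
              rw [Finset.mul_sum]
              apply Finset.sum_congr rfl
              intro n _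
              unfold F
              push_cast
              field_simp
          _ ≤ l ^ 2 / ((2 ^ (b + m) : ℕ) : ℝ) ^ 2 *
              ∑ n ∈ Finset.range (8 * N), ((pc n (n + 2 ^ (b + m)) : ℝ)) ^ 2 := by
              apply mul_le_mul_of_nonneg_left _ (by positivity)
              apply Finset.sum_le_sum_of_subset_of_nonneg
              · intro x hx; rw [Finset.mem_range] at hx ⊢; omega
              · intro _ _ _; positivity
          _ ≤ l ^ 2 / ((2 ^ (b + m) : ℕ) : ℝ) ^ 2 *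
              (C * ((8 * N : ℕ) : ℝ) * ((2 ^ (b + m) : ℕ) : ℝ) ^ 2 / LZ ^ 2) :=
              mul_le_mul_of_nonneg_left h3 (by positivity)
          _ = 8 * C * N * (l ^ 2 / LZ ^ 2) := by push_cast; field_simp
          _ ≤ 8 * C * N * 1 := by
              apply mul_le_mul_of_nonneg_left _ (by positivity)
              rw [div_le_one (pow_pos (by linarith) 2)]
              gcongr
          _ = 8 * C * N := mul_one _
      have h4 : (X1.card : ℝ) * A ^ 2 ≤ (δ / 2 * N) * A ^ 2 := by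
        calc (X1.card : ℝ) * A ^ 2 ≤ 8 * C * N := h1.trans h2
          _ ≤ A ^ 2 * (δ / 2) * N := mul_le_mul_of_nonneg_right hA2 (by positivity)
          _ = (δ / 2 * N) * A ^ 2 := by ring
      exact le_of_mul_le_mul_right h4 (pow_pos (by linarith) 2)
    have hcX2 : ∀ i ∈ Finset.Ico b (b + m), ∀ q ∈ Q i,
        ((X2 i q).card : ℝ) ≤ δ / (2 * m * 2 ^ m) * N := by
      intro i hi q hq
      rw [Finset.mem_Ico] at hi
      rw [hQ, Finset.mem_filter, Finset.mem_range] at hq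
      obtain ⟨hi3, hi4⟩ := hgood i hi.1 hi.2
      have h1 := cheb (Finset.range N)
        (fun n => F l i (n + q * 2 ^ (i + 1)) - F l i (n + q * 2 ^ (i + 1) + 2 ^ i)) t ht0
      have h2 := diff_energy l N i (q * 2 ^ (i + 1)) (by omega) hi3
      have h3 : l ^ 2 * Df (8 * N) (2 ^ i) / 4 ^ i ≤ eta * N := by
        rw [div_le_iff₀ (by positivity)]
        calc l ^ 2 * Df (8 * N) (2 ^ i) ≤ l ^ 2 * (eta * 4 ^ i * N / l ^ 2) :=
              mul_le_mul_of_nonneg_left hi4 (by positivity)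
          _ = eta * N * 4 ^ i := by field_simp
      have h4 : ((X2 i q).card : ℝ) * t ^ 2 ≤ (δ / (2 * m * 2 ^ m) * N) * t ^ 2 := by
        calc ((X2 i q).card : ℝ) * t ^ 2 ≤ eta * N := h1.trans (h2.trans h3)
          _ = (δ / (2 * m * 2 ^ m) * N) * t ^ 2 := by rw [heta]; ring
      exact le_of_mul_le_mul_right h4 (by positivity)
    set X := X1 ∪ (Finset.Ico b (b + m)).biUnion (fun i => (Q i).biUnion (fun q => X2 i q)) with hX
    have hcX : (X.card : ℝ) ≤ δ * N := by
      have h1 : (((Finset.Ico b (b + m)).biUnion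
          (fun i => (Q i).biUnion (fun q => X2 i q))).card : ℝ) ≤
          ∑ i ∈ Finset.Ico b (b + m), ∑ q ∈ Q i, ((X2 i q).card : ℝ) := by
        have h2 : ((Finset.Ico b (b + m)).biUnion (fun i => (Q i).biUnion (fun q => X2 i q))).card ≤
            ∑ i ∈ Finset.Ico b (b + m), ∑ q ∈ Q i, (X2 i q).card :=
          Finset.card_biUnion_le.trans (Finset.sum_le_sum fun i _ => Finset.card_biUnion_le)
        exact_mod_cast h2
      have h3 : ∑ i ∈ Finset.Ico b (b + m), ∑ q ∈ Q i, ((X2 i q).card : ℝ) ≤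
          ∑ i ∈ Finset.Ico b (b + m), (2 ^ m * (δ / (2 * m * 2 ^ m) * N) : ℝ) := by
        apply Finset.sum_le_sum
        intro i hi
        refine (Finset.sum_le_sum (hcX2 i hi)).trans ?_
        rw [Finset.sum_const, nsmul_eq_mul]
        apply mul_le_mul_of_nonneg_right _ (by positivity)
        have h4 : (Q i).card ≤ 2 ^ m := by
          have := Finset.card_filter_le (Finset.range (2 ^ m)) (fun q => q * 2 ^ (i + 1) < 2 ^ (b + m))
          rwa [Finset.card_range] at this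
        exact_mod_cast h4
      rw [Finset.sum_const, nsmul_eq_mul, Nat.card_Ico, Nat.add_sub_cancel_left] at h3
      have h5 : (m : ℝ) * (2 ^ m * (δ / (2 * m * 2 ^ m) * N)) = δ / 2 * N := by
        field_simp
      rw [h5] at h3
      have h6 : (X.card : ℝ) ≤ X1.card + ((Finset.Ico b (b + m)).biUnion
          (fun i => (Q i).biUnion (fun q => X2 i q))).card := by
        exact_mod_cast Finset.card_union_le _ _
      linarith
    refine le_trans ?_ hcX
    have hsub : {n : ℕ | n < N ∧ ∃ h ≤ H, δ * H / l <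
        |(pc n (n + h) : ℝ) - h / H * (pc n (n + H) : ℝ)|} ⊆ (X : Set ℕ) := by
      rintro n ⟨hnN, h, hhH, hh⟩
      by_contra hnX
      rw [Finset.mem_coe, hX, Finset.mem_union, not_or] at hnX
      obtain ⟨hn1, hn2⟩ := hnX
      have hD : F l (b + m) n ≤ A := by
        by_contra hcon
        push Not at hcon
        apply hn1
        rw [hX1, Finset.mem_filter, Finset.mem_range]
        exact ⟨hnN, hcon.trans_le (le_abs_self _)⟩
      have hg : ∀ i, b ≤ i → i < b + m → ∀ q, q * 2 ^ (i + 1) < 2 ^ (b + m) →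
          |F l i (n + q * 2 ^ (i + 1)) - F l i (n + q * 2 ^ (i + 1) + 2 ^ i)| ≤ t := by
        intro i hi1 hi2 q hq
        by_contra hcon
        push Not at hcon
        apply hn2
        rw [Finset.mem_biUnion]
        refine ⟨i, by rw [Finset.mem_Ico]; omega, ?_⟩
        rw [Finset.mem_biUnion]
        refine ⟨q, ?_, ?_⟩
        · rw [hQ, Finset.mem_filter, Finset.mem_range]
          refine ⟨?_, hq⟩
          have h1 : q * 2 ^ b ≤ q * 2 ^ (i + 1) :=
            Nat.mul_le_mul_left _ (Nat.pow_le_pow_right (by norm_num) (by omega))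
          have h2 : q * 2 ^ b < 2 ^ m * 2 ^ b := by
            rw [← pow_add, add_comm m b]; omega
          exact lt_of_mul_lt_mul_right h2 (Nat.zero_le _)
        · rw [hX2, Finset.mem_filter, Finset.mem_range]
          exact ⟨hnN, hcon⟩
      have hbound : 2 ^ b * F l (b + m) n + 2 ^ (b + m) * (m * t / 2) ≤ δ * H / 2 := by
        have h1 : (2 : ℝ) ^ b * F l (b + m) n ≤ 2 ^ (b + m) * (δ / 8) := by
          calc (2 : ℝ) ^ b * F l (b + m) n ≤ 2 ^ b * A := by gcongr
            _ = 2 ^ (b + m) * (A / 2 ^ m) := by rw [pow_add]; field_simp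
            _ ≤ 2 ^ (b + m) * (δ / 8) := by gcongr
        rw [hmt]
        have h2 : (2 : ℝ) ^ (b + m) * (δ / 8) ≤ 2 * H * (δ / 8) :=
          mul_le_mul_of_nonneg_right hL2' (by positivity)
        linarith
      have u1 := (uniform l hl0 b m n t ht0.le hg h (hhH.trans hHL)).trans hbound
      have u2 := (uniform l hl0 b m n t ht0.le hg H hHL).trans hbound
      have hhr : (h : ℝ) / H ≤ 1 := by
        rw [div_le_one hHr]; exact_mod_cast hhH
      have hh0 : (0 : ℝ) ≤ h / H := by positivity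
      have key : |l * ((pc n (n + h) : ℝ) - h / H * (pc n (n + H) : ℝ))| ≤ δ * H := by
        have e : l * ((pc n (n + h) : ℝ) - h / H * (pc n (n + H) : ℝ)) =
            (l * (pc n (n + h) : ℝ) - h * F l (b + m) n) -
            h / H * (l * (pc n (n + H) : ℝ) - H * F l (b + m) n) := by
          field_simp; ring
        rw [e]
        refine (abs_sub _ _).trans ?_
        rw [abs_mul, abs_of_nonneg hh0]
        have h3 : (h : ℝ) / H * |l * (pc n (n + H) : ℝ) - H * F l (b + m) n| ≤ 1 * (δ * H / 2) :=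
          mul_le_mul hhr u2 (abs_nonneg _) zero_le_one
        linarith
      rw [abs_mul, abs_of_pos hl0] at key
      rw [div_lt_iff₀ hl0] at hh
      linarith
    have := Set.ncard_le_ncard hsub (Finset.finite_toSet X)
    rw [Set.ncard_coe_finset] at this
    exact_mod_cast this

end Pool.Agent.H582SR
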